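import Mathlib

open Finset Filter Asymptotics

namespace Pool.Agent.Results.MP_675def_co.Superpoly

/-- The set of values of multinomial coefficients with upper entry `n`. -/
def M (n : ℕ) : Finset ℕ :=
  univ.image fun l : n.Partition => n.factorial / (l.parts.map Nat.factorial).prod

/-- The number of unordered representations of `t` as a sum of two elements. -/
def r (n t : ℕ) : ℕ := #{p ∈ M n ×ˢ M n | p.1 ≤ p.2 ∧ p.1 + p.2 = t}

/-- All sums of two elements. -/
def sums (n : ℕ) : Finset ℕ := (M n ×ˢ M n).image fun p => p.1 + p.2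

def C (n : ℕ) : ℕ := ∑ t ∈ sums n, (r n t - 1)

def D (n : ℕ) : ℕ := #{t ∈ sums n | 2 ≤ r n t}

def μ (n : ℕ) : ℕ := (sums n).sup (r n)

lemma prod_dvd (s : Multiset ℕ) : (s.map Nat.factorial).prod ∣ s.sum.factorial := by
  induction s using Multiset.induction_on with
  | empty => simp
  | cons a s ih =>
    rw [Multiset.map_cons, Multiset.prod_cons, Multiset.sum_cons]
    exact (mul_dvd_mul_left _ ih).trans (Nat.factorial_mul_factorial_dvd_factorial_add _ _)

lemma mem_M {n : ℕ} (s : Multiset ℕ) (hs : ∀ x ∈ s, 0 < x) (h : s.sum ≤ n) {m : ℕ}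
    (e : n.factorial = (s.map Nat.factorial).prod * m) : m ∈ M n := by
  refine mem_image.2 ⟨⟨s + Multiset.replicate (n - s.sum) 1, ?_, ?_⟩, mem_univ _, ?_⟩
  · intro i hi
    rcases Multiset.mem_add.1 hi with h | h
    · exact hs i h
    · rw [Multiset.eq_of_mem_replicate h]; exact one_pos
  · simp; omega
  · simp only [Multiset.map_add, Multiset.prod_add, Multiset.map_replicate, Nat.factorial_one,
      Multiset.prod_replicate, one_pow, mul_one]
    exact Nat.div_eq_of_eq_mul_right (Nat.pos_of_ne_zero fun c => n.factorial_ne_zero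
      (by rw [e, c, zero_mul])) e

lemma key {n L : ℕ} (h : L ^ 2 + 5 ≤ n) : ∃ m, 0 < m ∧ ∀ T ⊆ L.primesLE, ∀ e ∈ Icc 1 3,
    e * (m * ∏ p ∈ T, p) ∈ M n := by
  let s : Finset ℕ → Multiset ℕ := fun T => L.primesLE.val.map fun p => if p ∈ T then p - 1 else p
  have s1 : ∀ T, (s T).sum ≤ L ^ 2 := fun T => by
    have := sum_le_card_nsmul L.primesLE (fun p => if p ∈ T then p - 1 else p) L fun p hp => by
      have := (Nat.mem_primesLE.1 hp).1
      split_ifs <;> omega
    refine this.trans ?_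
    rw [smul_eq_mul, sq]
    refine Nat.mul_le_mul_right _ ((card_le_card (t := Icc 1 L) fun p hp => ?_).trans (by simp))
    have := Nat.mem_primesLE.1 hp
    exact mem_Icc.2 ⟨this.2.pos, this.1⟩
  have s2 : ∀ T, ∀ x ∈ s T, 0 < x := fun T x hx => by
    obtain ⟨p, hp, rfl⟩ := Multiset.mem_map.1 hx
    have := (Nat.mem_primesLE.1 hp).2.two_le
    split_ifs <;> omega
  have s3 : ∀ T ⊆ L.primesLE, ((s T).map Nat.factorial).prod * ∏ p ∈ T, p =
      ((s ∅).map Nat.factorial).prod := fun T hT => by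
    have : ∏ p ∈ T, p = ∏ p ∈ L.primesLE, if p ∈ T then p else 1 := by
      rw [prod_ite_mem, inter_eq_right.2 hT]
    simp only [s, Multiset.map_map, this, notMem_empty, if_false]
    refine prod_mul_distrib.symm.trans (prod_congr rfl fun p hp => ?_)
    simp only [Function.comp]
    split_ifs
    · rw [mul_comm, Nat.mul_factorial_pred (Nat.mem_primesLE.1 hp).2.ne_zero]
    · simp
  obtain ⟨m, hm⟩ := (prod_dvd (s ∅ + {2, 3})).trans
    (Nat.factorial_dvd_factorial (n := n) (by have := s1 ∅; simp at this ⊢; omega))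
  refine ⟨m, Nat.pos_of_ne_zero fun c => n.factorial_ne_zero (by rw [hm, c, mul_zero]),
    fun T hT e he => ?_⟩
  have H : ∀ x : Multiset ℕ, (∀ a ∈ x, 0 < a) → x.sum ≤ 5 → (x.map Nat.factorial).prod * e = 12 →
      e * (m * ∏ p ∈ T, p) ∈ M n := fun x h1 h2 h3 => by
    refine mem_M (s T + x) (fun a ha => (Multiset.mem_add.1 ha).elim (s2 T a) (h1 a))
      (by have := s1 T; rw [Multiset.sum_add]; omega) ?_
    rw [hm, Multiset.map_add, Multiset.map_add, Multiset.prod_add, Multiset.prod_add, ← s3 T hT,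
      show (({2, 3} : Multiset ℕ).map Nat.factorial).prod = 12 by decide, ← h3]
    ring
  rw [mem_Icc] at he
  obtain ⟨a, b⟩ := he
  interval_cases e
  · exact H {2, 3} (by decide) (by decide) (by decide)
  · exact H {3} (by decide) (by decide) (by decide)
  · exact H {2, 2} (by decide) (by decide) (by decide)

lemma inj (L : ℕ) : Set.InjOn (fun T : Finset ℕ => ∏ p ∈ T, p) (L.primesLE.powerset) :=
  fun T hT U hU e => by
  rw [← Nat.primeFactors_prod fun p hp => (Nat.mem_primesLE.1 (mem_powerset.1 hT hp)).2,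
    ← Nat.primeFactors_prod (s := U) fun p hp => (Nat.mem_primesLE.1 (mem_powerset.1 hU hp)).2]
  exact congrArg _ e

lemma D_ge {n L : ℕ} (h : L ^ 2 + 5 ≤ n) : 2 ^ L.primeCounting ≤ D n := by
  obtain ⟨m, h0, hm⟩ := key h
  rw [← Nat.primesLE_card_eq_primeCounting, ← card_powerset]
  refine card_le_card_of_injOn (fun T => 4 * (m * ∏ p ∈ T, p)) (fun T hT => ?_)
    fun T hT U hU e => inj L hT hU (Nat.eq_of_mul_eq_mul_left h0 (by simpa using e))
  have hT := mem_powerset.1 hT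
  have p : 0 < m * ∏ p ∈ T, p :=
    mul_pos h0 (prod_pos fun p hp => (Nat.mem_primesLE.1 (hT hp)).2.pos)
  have m1 := hm T hT 1 (by decide)
  have m2 := hm T hT 2 (by decide)
  have m3 := hm T hT 3 (by decide)
  simp only [mem_coe, mem_filter]
  generalize m * ∏ p ∈ T, p = x at *
  refine ⟨mem_image.2 ⟨(2 * x, 2 * x), mem_product.2 ⟨m2, m2⟩, by ring⟩, ?_⟩
  refine one_lt_card.2 ⟨(1 * x, 3 * x), mem_filter.2 ⟨mem_product.2 ⟨m1, m3⟩, by omega, by ring⟩,
    (2 * x, 2 * x), mem_filter.2 ⟨mem_product.2 ⟨m2, m2⟩, le_rfl, by ring⟩, ?_⟩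
  simp; omega

lemma D_le_C (n : ℕ) : D n ≤ C n := by
  rw [D, C, card_filter]
  refine sum_le_sum fun t _ => ?_
  split_ifs <;> omega

lemma mu_ge {n L : ℕ} (h : L ^ 2 + 5 ≤ n) (k : ℕ) :
    L.primeCounting.choose k ^ 2 ≤ 2 * (μ n * (2 * L ^ k + 1)) := by
  obtain ⟨m, h0, hm⟩ := key h
  let A := (L.primesLE.powersetCard k).image fun T => ∏ p ∈ T, p
  have cA : #A = L.primeCounting.choose k := by
    rw [card_image_of_injOn ((inj L).mono fun T hT => by
      simpa using (mem_powersetCard.1 hT).1), card_powersetCard, Nat.primesLE_card_eq_primeCounting]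
  have hA : ∀ a ∈ A, a ≤ L ^ k ∧ m * a ∈ M n := fun a ha => by
    obtain ⟨T, hT, rfl⟩ := mem_image.1 ha
    obtain ⟨h1, h2⟩ := mem_powersetCard.1 hT
    exact ⟨h2 ▸ prod_le_pow_card _ _ _ fun p hp => (Nat.mem_primesLE.1 (h1 hp)).1,
      by simpa using hm T h1 1 (by decide)⟩
  have b : #{p ∈ A ×ˢ A | p.1 ≤ p.2} ≤ μ n * #(range (2 * L ^ k + 1)) := by
    refine card_le_mul_card_image_of_maps_to (f := fun p => p.1 + p.2) (fun p hp => ?_) _
      fun t _ => ?_
    · have := mem_product.1 (mem_filter.1 hp).1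
      have := (hA _ this.1).1
      have := (hA _ ‹_ ∧ _›.2).1
      rw [mem_range]; omega
    · have : r n (m * t) ≤ μ n := by
        rcases (r n (m * t)).eq_zero_or_pos with c | c
        · omega
        · obtain ⟨p, hp⟩ := card_pos.1 c
          exact le_sup (f := r n) (mem_image.2 ⟨p, (mem_filter.1 hp).1, (mem_filter.1 hp).2.2⟩)
      refine le_trans (card_le_card_of_injOn (fun p => (m * p.1, m * p.2)) (fun p hp => ?_)
        fun p _ q _ e => ?_) this
      · simp only [mem_coe, mem_filter, mem_product] at hp ⊢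
        exact ⟨⟨(hA _ hp.1.1.1).2, (hA _ hp.1.1.2).2⟩, Nat.mul_le_mul_left _ hp.1.2,
          by rw [← hp.2, mul_add]⟩
      · simp only [Prod.mk.injEq] at e
        exact Prod.ext (Nat.eq_of_mul_eq_mul_left h0 e.1) (Nat.eq_of_mul_eq_mul_left h0 e.2)
  have c := card_filter_add_card_filter_not (s := A ×ˢ A) fun p => p.1 ≤ p.2
  have d : #{p ∈ A ×ˢ A | ¬p.1 ≤ p.2} ≤ #{p ∈ A ×ˢ A | p.1 ≤ p.2} :=
    card_le_card_of_injOn Prod.swap (fun p hp => by
      simp only [mem_coe, mem_filter, mem_product, Prod.fst_swap, Prod.snd_swap] at hp ⊢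
      exact ⟨hp.1.symm, by omega⟩) Prod.swap_injective.injOn
  rw [card_product, cA, ← sq] at c
  rw [card_range] at b
  omega

lemma pi_big (k : ℕ) : ∀ᶠ L : ℕ in atTop, L ^ 3 ≤ (L.primeCounting + 1 - k) ^ 4 := by
  filter_upwards [((tendsto_rpow_atTop (show (0 : ℝ) < 1 / 8 by norm_num)).comp
    tendsto_natCast_atTop_atTop).eventually_ge_atTop (32 + k), eventually_gt_atTop 1] with L h h1
  have L1 : (1 : ℝ) < L := by exact_mod_cast h1
  have a := Chebyshev.pi_ge L
  have b := Real.log_le_rpow_div (x := L) (by positivity) (show (0 : ℝ) < 1 / 8 by norm_num)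
  have c : Real.log (L + 1) ≤ Real.log 2 + Real.log L := by
    rw [← Real.log_mul (by norm_num) (by positivity)]; gcongr; linarith
  have e : ((L : ℝ) ^ (1 / 8 : ℝ)) ^ 8 = L := by
    rw [← Real.rpow_natCast, ← Real.rpow_mul (by positivity)]; norm_num
  rw [div_le_iff₀ (Real.log_pos L1)] at a
  simp only [Function.comp] at h
  generalize (L : ℝ) ^ (1 / 8 : ℝ) = u at *
  have k0 : (0 : ℝ) ≤ k := by positivity
  have u0 : 0 < u := by linarith
  have p0 : (0 : ℝ) ≤ L.primeCounting := by positivity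
  have l1 := Real.log_two_gt_d9
  have l2 := Real.log_two_lt_d9
  have f : u ^ 6 + k ≤ L.primeCounting := by
    by_contra g
    have u6 : u ≤ u ^ 6 := le_self_pow₀ (by linarith) (by norm_num)
    have : L.primeCounting * Real.log L ≤ 2 * u ^ 6 * (8 * u) :=
      mul_le_mul (by linarith) (by linarith) (Real.log_pos L1).le (by positivity)
    have : 32 * u ^ 7 ≤ u ^ 8 := by
      rw [pow_succ' u 7]; gcongr; linarith
    have : u ^ 6 ≤ u ^ 7 := pow_le_pow_right₀ (by linarith) (by norm_num)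
    nlinarith
  have g : k ≤ L.primeCounting := by
    have : (k : ℝ) ≤ L.primeCounting := le_trans (le_add_of_nonneg_left (by positivity)) f
    exact_mod_cast this
  have : (L : ℝ) ^ 3 ≤ ((L.primeCounting + 1 - k : ℕ) : ℝ) ^ 4 := by
    rw [← e, ← pow_mul, show 8 * 3 = 6 * 4 from rfl, pow_mul, Nat.cast_sub (by omega)]
    gcongr; push_cast; linarith
  exact_mod_cast this

lemma low (i : ℕ) : ∃ c : ℕ, 0 < c ∧ ∀ᶠ n : ℕ in atTop, n ^ i ≤ c * D n ∧ n ^ i ≤ c * μ n := by
  obtain ⟨N, hN⟩ := eventually_atTop.1 (pi_big (4 * i))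
  refine ⟨9 ^ i * (6 * (4 * i).factorial ^ 2), by positivity, ?_⟩
  filter_upwards [eventually_ge_atTop ((N + 1) ^ 2 + 5)] with n hn
  have a := Nat.sqrt_le' (n - 5)
  have b := Nat.lt_succ_sqrt' (n - 5)
  have c : N + 1 ≤ (n - 5).sqrt := Nat.le_sqrt'.2 (by omega)
  generalize (n - 5).sqrt = L at *
  have h : L ^ 2 + 5 ≤ n := by omega
  have d : n ^ i ≤ 9 ^ i * L ^ (2 * i) := by
    rw [pow_mul, ← mul_pow]
    refine Nat.pow_le_pow_left ?_ _
    have : n < (L + 1) ^ 2 + 5 := by simp only [Nat.succ_eq_add_one] at b; omega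
    nlinarith
  have e : L ^ (3 * i) ≤ (4 * i).factorial * L.primeCounting.choose (4 * i) := by
    rw [← Nat.descFactorial_eq_factorial_mul_choose]
    refine le_trans ?_ (Nat.pow_sub_le_descFactorial _ _)
    rw [pow_mul, pow_mul]
    exact Nat.pow_le_pow_left (hN L (by omega)) _
  have f := (Nat.choose_le_two_pow _ (4 * i)).trans (D_ge h)
  have g := mu_ge h (4 * i)
  have p : 0 < L ^ (4 * i) := by have : 0 < L := by omega
                                 positivity
  have F := (4 * i).factorial_pos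
  constructor <;> refine d.trans ?_ <;> rw [mul_assoc] <;> refine Nat.mul_le_mul_left _ ?_
  · refine (Nat.pow_le_pow_right (by omega) (by omega)).trans (e.trans (Nat.mul_le_mul ?_ f))
    nlinarith
  · refine Nat.le_of_mul_le_mul_right ?_ p
    calc _ = (L ^ (3 * i)) ^ 2 := by ring
      _ ≤ ((4 * i).factorial * L.primeCounting.choose (4 * i)) ^ 2 := by gcongr
      _ ≤ (4 * i).factorial ^ 2 * (2 * (μ n * (3 * L ^ (4 * i)))) := by
          rw [mul_pow]; gcongr; exact g.trans (by gcongr; omega)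
      _ = _ := by ring

lemma tend {f : ℕ → ℕ} {j c : ℕ} (hc : 0 < c) (h : ∀ᶠ n : ℕ in atTop, n ^ (j + 1) ≤ c * f n) :
    Tendsto (fun n : ℕ => (f n : ℝ) / (n : ℝ) ^ j) atTop atTop := by
  have c0 : (0 : ℝ) < c := by exact_mod_cast hc
  refine tendsto_atTop_mono' _ ?_ (tendsto_natCast_atTop_atTop.atTop_div_const c0)
  filter_upwards [h, eventually_gt_atTop 0] with n h hn
  rw [div_le_div_iff₀ c0 (by positivity), ← pow_succ', mul_comm]
  exact_mod_cast h

lemma notO {f g : ℕ → ℝ} (h : Tendsto (fun n : ℕ => f n / (n : ℝ) ^ 3) atTop atTop)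
    (hg : ∀ n : ℕ, 1 ≤ n → |g n| ≤ (n : ℝ) ^ 3) : ¬f =O[atTop] g := fun o => by
  obtain ⟨c, c0, hc⟩ := o.exists_pos
  obtain ⟨n, ⟨h1, h2⟩, h3⟩ := ((hc.bound.and (h.eventually_gt_atTop c)).and
    (eventually_ge_atTop 1)).exists
  rw [lt_div_iff₀ (by positivity)] at h2
  have := mul_le_mul_of_nonneg_left (hg n h3) c0.le
  rw [Real.norm_eq_abs, Real.norm_eq_abs] at h1
  linarith [le_abs_self (f n)]

theorem result :
    (∀ j : ℕ, Tendsto (fun n : ℕ => (C n : ℝ) / (n : ℝ) ^ j) atTop atTop ∧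
      Tendsto (fun n : ℕ => (D n : ℝ) / (n : ℝ) ^ j) atTop atTop ∧
      Tendsto (fun n : ℕ => (μ n : ℝ) / (n : ℝ) ^ j) atTop atTop) ∧
    ¬(fun n : ℕ => (C n : ℝ)) =O[atTop] (fun n : ℕ => (n : ℝ) ^ 2 * Real.log n) ∧
    ¬(fun n : ℕ => (D n : ℝ)) =O[atTop] (fun n : ℕ => (n : ℝ) ^ (3 / 2 : ℝ) * √(Real.log n)) ∧
    ¬(fun n : ℕ => (μ n : ℝ)) =O[atTop] (fun n : ℕ => √(n * Real.log n)) := by
  have H : ∀ j : ℕ, Tendsto (fun n : ℕ => (C n : ℝ) / (n : ℝ) ^ j) atTop atTop ∧
      Tendsto (fun n : ℕ => (D n : ℝ) / (n : ℝ) ^ j) atTop atTop ∧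
      Tendsto (fun n : ℕ => (μ n : ℝ) / (n : ℝ) ^ j) atTop atTop := fun j => by
    obtain ⟨c, hc, h⟩ := low (j + 1)
    exact ⟨tend hc (h.mono fun n h => h.1.trans (Nat.mul_le_mul_left _ (D_le_C n))),
      tend hc (h.mono fun n h => h.1), tend hc (h.mono fun n h => h.2)⟩
  have l : ∀ n : ℕ, 1 ≤ n → (1 : ℝ) ≤ n ∧ 0 ≤ Real.log n ∧ Real.log n ≤ n := fun n hn =>
    ⟨by exact_mod_cast hn, by positivity, Real.log_le_self (by positivity)⟩
  refine ⟨H, notO (H 3).1 fun n hn => ?_, notO (H 3).2.1 fun n hn => ?_,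
    notO (H 3).2.2 fun n hn => ?_⟩ <;> obtain ⟨a, b, c⟩ := l n hn <;>
    rw [abs_of_nonneg (by positivity)]
  · rw [pow_succ _ 2]; gcongr
  · rw [pow_succ _ 2]
    refine mul_le_mul ?_ (Real.sqrt_le_iff.2 ⟨by positivity, by nlinarith⟩) (by positivity)
      (by positivity)
    rw [← Real.rpow_natCast]
    exact Real.rpow_le_rpow_of_exponent_le a (by norm_num)
  · refine (Real.sqrt_le_iff.2 ⟨by positivity, by nlinarith⟩ : _ ≤ (n : ℝ)).trans
      (le_self_pow₀ a (by norm_num))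

end Pool.Agent.Results.MP_675def_co.Superpoly
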